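import Mathlib
import Pool.Agent.H627.FN.Main

set_option autoImplicit false

/-!
# MP_37e5fa_nt: an exact zero-one law for Fermat-type numbers

The Fermat number `F_m` is the value at `β = 1` of `N_m(β) = ⌊β 2^(2^m)⌋ + 1`.  All prime factors
of `F_m` exceed `2^(m+1)`, so `F_m` is composite exactly when it has two prime factors (with
multiplicity) exceeding `2^(m+1)`.

We prove the exact law, for almost every amplitude `β`, of the second largest prime factor of such
numbers: for every sequence `t_m ≥ 0`, almost every `β > 0`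

* if `∑ t_m / 2^m < ∞` then `N_m(β)` has two prime factors exceeding `2^(t_m)` for all but finitely
  many `m` (the case of the Fermat numbers is `t_m = m + 1`, far inside this range, which goes up to
  `t_m = 2^m / m^(1+ε)`);
* if `∑ t_m / 2^m = ∞` then for infinitely many `m` the number `N_m(β)` is the product of a prime
  and an integer `s ≤ 2^(t_m)`.

The same is proved for every integer base, every lacunary sequence of exponents and all relatively
small additive terms.
-/

namespace Pool.Agent.Results.MP_37e5fa_nt.AmplitudeLaw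

open Filter Topology MeasureTheory

/-- the number of prime factors of `x` exceeding `z`, counted with multiplicity -/
noncomputable def big (z : ℝ) (x : ℕ) : ℕ :=
  (x.primeFactorsList.filter (fun p : ℕ => z < (p : ℝ))).length

lemma big_eq {z : ℝ} (hz : 0 ≤ z) (x : ℕ) : big z x = Pool.Agent.H627.FN.bigN ⌊z⌋₊ x := by
  unfold big Pool.Agent.H627.FN.bigN
  congr 1
  refine List.filter_congr fun p _ => ?_
  rw [decide_eq_decide]
  exact (Nat.floor_lt hz).symm

lemma fermat_factor {m p : ℕ} (hp : p.Prime) (hd : p ∣ Nat.fermatNumber m) : 2 ^ (m + 1) < p := by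
  rcases Nat.lt_or_ge 1 m with hm | hm
  · obtain ⟨k, hk⟩ := Nat.fermat_primeFactors_one_lt m p hm hp hd
    have hk0 : k ≠ 0 := by
      rintro rfl
      rw [hk] at hp
      simp at hp
      exact Nat.not_prime_one hp
    have h1 : 2 ^ (m + 2) ≤ k * 2 ^ (m + 2) := Nat.le_mul_of_pos_left _ (Nat.pos_of_ne_zero hk0)
    have h2 : 2 ^ (m + 2) = 2 * 2 ^ (m + 1) := by ring
    omega
  · interval_cases m
    · have h3 : Nat.fermatNumber 0 = 3 := by norm_num [Nat.fermatNumber]
      rw [h3] at hd
      have := (Nat.prime_dvd_prime_iff_eq hp Nat.prime_three).1 hd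
      subst this
      norm_num
    · have h5 : Nat.fermatNumber 1 = 5 := by norm_num [Nat.fermatNumber]
      rw [h5] at hd
      have := (Nat.prime_dvd_prime_iff_eq hp (by norm_num)).1 hd
      subst this
      norm_num

lemma big_fermat (m : ℕ) : big ((2 : ℝ) ^ ((m : ℝ) + 1)) (Nat.fermatNumber m) =
    (Nat.fermatNumber m).primeFactorsList.length := by
  unfold big
  congr 1
  rw [List.filter_eq_self]
  intro p hp
  have h1 := fermat_factor (Nat.prime_of_mem_primeFactorsList hp) (Nat.dvd_of_mem_primeFactorsList hp)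
  rw [decide_eq_true_eq]
  have h2 : ((2 : ℝ) ^ ((m : ℝ) + 1)) = ((2 ^ (m + 1) : ℕ) : ℝ) := by
    have : ((m : ℝ) + 1) = ((m + 1 : ℕ) : ℝ) := by push_cast; ring
    rw [this, Real.rpow_natCast]
    push_cast
    ring
  rw [h2]
  exact_mod_cast h1

/-- **The zero-one law for Fermat-type numbers.** -/
theorem result :
    -- the dichotomy, for every integer base, lacunary exponents `n_j` and additive terms `c_j`
    (∀ (b : ℕ), 2 ≤ b → ∀ (n : ℕ → ℕ) (θ : ℝ), θ < 1 → (∀ j, 0 < n j) →
      (∀ j, (n j : ℝ) ≤ θ * n (j + 1)) → ∀ c : ℕ → ℕ,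
      Tendsto (fun j => (c j : ℝ) / (b : ℝ) ^ n j) atTop (𝓝 0) → ∀ t : ℕ → ℝ, (∀ j, 0 ≤ t j) →
      ((Summable fun j => t j / n j) → ∀ᵐ β : ℝ, 0 < β → ∀ᶠ j in atTop,
        2 ≤ big ((b : ℝ) ^ t j) (⌊β * (b : ℝ) ^ n j⌋₊ + c j)) ∧
      ((¬ Summable fun j => t j / n j) → ∀ᵐ β : ℝ, 0 < β → ∃ᶠ j in atTop,
        ∃ s q : ℕ, 1 ≤ s ∧ (s : ℝ) ≤ (b : ℝ) ^ t j ∧ q.Prime ∧
          ⌊β * (b : ℝ) ^ n j⌋₊ + c j = s * q)) ∧
    -- the Fermat numbers are the case `b = 2`, `n_m = 2^m`, `c_m = 1`, `β = 1`, `t_m = m + 1`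
    (∀ m : ℕ, ⌊(1 : ℝ) * (2 : ℝ) ^ (2 ^ m)⌋₊ + 1 = Nat.fermatNumber m) ∧
    (∀ m : ℕ, ¬ (Nat.fermatNumber m).Prime ↔
      2 ≤ big ((2 : ℝ) ^ ((m : ℝ) + 1)) (Nat.fermatNumber m)) := by
  refine ⟨?_, ?_, ?_⟩
  · intro b hb n θ hθ hn0 hn c hc t ht
    have hL : Pool.Agent.H627.FN.Lac n θ := ⟨hθ, hn0, hn⟩
    constructor
    · intro hs
      filter_upwards [Pool.Agent.H627.FN.conv_part hb hL hc ht hs] with β hβ hpos
      refine (hβ hpos).mono fun j hj => ?_
      rw [big_eq (by positivity)]
      omega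
    · intro hs
      exact Pool.Agent.H627.FN.div_part hb hL hc ht hs
  · intro m
    have h : (1 : ℝ) * (2 : ℝ) ^ (2 ^ m) = ((2 ^ (2 ^ m) : ℕ) : ℝ) := by push_cast; ring
    rw [h, Nat.floor_natCast]
    rfl
  · intro m
    rw [big_fermat]
    have h0 : Nat.fermatNumber m ≠ 0 := by
      unfold Nat.fermatNumber
      exact Nat.succ_ne_zero _
    have h1 : Nat.fermatNumber m ≠ 1 := by
      unfold Nat.fermatNumber
      have : 0 < 2 ^ 2 ^ m := by positivity
      omega
    have h2 : (Nat.fermatNumber m).primeFactorsList.length ≠ 0 := by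
      rw [Ne, List.length_eq_zero_iff, Nat.primeFactorsList_eq_nil]
      omega
    constructor
    · intro h
      by_contra hc
      have h3 : (Nat.fermatNumber m).primeFactorsList.length = 1 := by omega
      obtain ⟨p, hp⟩ := List.length_eq_one_iff.1 h3
      have h4 := Nat.prod_primeFactorsList h0
      rw [hp, List.prod_singleton] at h4
      have h5 : p ∈ (Nat.fermatNumber m).primeFactorsList := by rw [hp]; simp
      exact h (h4 ▸ Nat.prime_of_mem_primeFactorsList h5)
    · intro h hp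
      rw [Nat.primeFactorsList_prime hp] at h
      simp at h

end Pool.Agent.Results.MP_37e5fa_nt.AmplitudeLaw
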