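import Mathlib
import Pool.Agent.TH690.FM.D
import Pool.Agent.TH690.FM.E

/-!
# Fermat primes with an amplitude

For a fixed real base `b > 1`, for instance `b = 2`, and a real amplitude `a > 0` let
`G_m(a) = ⌊a b ^ (2 ^ m)⌋ + 1`, so that for `b = 2` the number `G_m(1) = 2 ^ (2 ^ m) + 1` is the `m`-th
Fermat number. The asymptotic size of the set of the amplitudes for which there is a prime `G_m(a)` with
`m ≥ M`.
-/

set_option autoImplicit false

open Filter Topology MeasureTheory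
open Pool.Agent.TH690.FM

namespace Pool.Agent.Results.MP_37e5fa_nt.FixedBase

/-- the `m`-th Fermat number to the base `b` with the amplitude `a` -/
noncomputable def G (b a : ℝ) (m : ℕ) : ℕ := ⌊a * b ^ (2 ^ m)⌋₊ + 1

theorem G_two (m : ℕ) : G 2 1 m = 2 ^ (2 ^ m) + 1 := by
  unfold G
  have : (1 : ℝ) * (2 : ℝ) ^ (2 ^ m) = ((2 ^ (2 ^ m) : ℕ) : ℝ) := by push_cast; ring
  rw [this, Nat.floor_natCast]

theorem two_pow_tendsto : Tendsto (fun m : ℕ => 2 ^ m) atTop atTop := tendsto_pow_atTop_atTop_of_one_lt one_lt_two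

theorem res_PA {u v : ℝ} (S : Set ℝ) (hS : MeasurableSet S) :
    (volume.restrict (Set.Ioc u v)).real S = volume.real (S ∩ Set.Ioc u v) := by
  rw [measureReal_def, measureReal_def, Measure.restrict_apply hS]

theorem lims {b : ℝ} (hb : 1 < b) {u v : ℝ} (hu : 0 < u) (huv : u ≤ v) :
    Tendsto (fun m : ℕ => 2 ^ m * (volume.restrict (Set.Ioc u v)).real (PA (b ^ (2 ^ m)))) atTop (𝓝 ((v - u) / Real.log b)) ∧
    ∀ j, 1 ≤ j → Tendsto (fun m : ℕ => 2 ^ m * (volume.restrict (Set.Ioc u v)).real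
      (PA (b ^ (2 ^ m)) ∩ PA (b ^ (2 ^ (m + j))))) atTop (𝓝 0) := by
  have hb0 : 0 < b := by linarith
  have hlog : Real.log b ≠ 0 := (Real.log_pos hb).ne'
  have hX : Tendsto (fun m : ℕ => b ^ (2 ^ m)) atTop atTop := (tendsto_pow_atTop_atTop_of_one_lt hb).comp two_pow_tendsto
  constructor
  · have h := ((lim_PA hu huv).comp hX).div_const (Real.log b)
    refine h.congr fun m => ?_
    rw [res_PA _ (PA_meas (by positivity))]
    simp only [Function.comp]
    rw [Real.log_pow]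
    push_cast
    field_simp
  · intro j hj
    have h := ((pair_PA hu huv (J := 2 ^ j) (by
      calc 2 = 2 ^ 1 := (pow_one 2).symm
        _ ≤ 2 ^ j := Nat.pow_le_pow_right (by norm_num) hj)).comp hX).div_const (Real.log b)
    rw [zero_div] at h
    refine h.congr fun m => ?_
    rw [res_PA _ ((PA_meas (by positivity)).inter (PA_meas (by positivity)))]
    simp only [Function.comp]
    rw [pow_add, pow_mul, Real.log_pow]
    push_cast
    field_simp

theorem union_meas {b : ℝ} (hb : 1 < b) (M : ℕ) : MeasurableSet (⋃ i, PA (b ^ (2 ^ (M + i)))) :=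
  MeasurableSet.iUnion fun i => PA_meas (pow_pos (by linarith) _)

theorem union_eq {b : ℝ} {u v : ℝ} (hu : 0 < u) (M : ℕ) : {a : ℝ | a ∈ Set.Ioc u v ∧ ∃ m, M ≤ m ∧ (G b a m).Prime} =
    (⋃ i, PA (b ^ (2 ^ (M + i)))) ∩ Set.Ioc u v := by
  ext a
  simp only [Set.mem_ofPred_eq, Set.mem_inter_iff, Set.mem_iUnion, PA, G]
  constructor
  · rintro ⟨h1, m, h2, h3⟩
    exact ⟨⟨m - M, by linarith [h1.1], by rw [show M + (m - M) = m by omega]; exact h3⟩, h1⟩
  · rintro ⟨⟨i, h1, h2⟩, h3⟩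
    exact ⟨h3, M + i, by omega, h2⟩

theorem tail_law {b : ℝ} (hb : 1 < b) {u v : ℝ} (hu : 0 < u) (huv : u ≤ v) :
    Tendsto (fun M : ℕ => 2 ^ M * volume.real {a : ℝ | a ∈ Set.Ioc u v ∧ ∃ m, M ≤ m ∧ (G b a m).Prime}) atTop
      (𝓝 (2 * ((v - u) / Real.log b))) := by
  obtain ⟨h1, h2⟩ := lims hb hu huv
  have h3 := tail_lim (volume.restrict (Set.Ioc u v)) (E := fun m => PA (b ^ (2 ^ m)))
    (fun n => PA_meas (pow_pos (by linarith) _)) (div_nonneg (by linarith) (Real.log_pos hb).le) h1 h2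
  refine h3.congr fun M => ?_
  rw [res_PA _ (union_meas hb M), union_eq hu]

theorem fin_ae {b : ℝ} (hb : 1 < b) : ∀ᵐ a : ℝ, 0 < a → {m : ℕ | (G b a m).Prime}.Finite := by
  have h0 : ∀ n : ℕ, ∀ᵐ a : ℝ, a ∈ Set.Ioc (1 / ((n : ℝ) + 1)) ((n : ℝ) + 2) → {m : ℕ | (G b a m).Prime}.Finite := by
    intro n
    set u : ℝ := 1 / ((n : ℝ) + 1) with hu
    set v : ℝ := (n : ℝ) + 2 with hv
    have hn : (0 : ℝ) ≤ n := Nat.cast_nonneg n
    have hu1 : 0 < u := by positivity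
    have huv : u ≤ v := by
      have : 1 / ((n : ℝ) + 1) ≤ 1 := by rw [div_le_one (by linarith)]; linarith
      linarith
    have hlim := tail_law hb hu1 huv
    have hz : Tendsto (fun M : ℕ => volume.real {a : ℝ | a ∈ Set.Ioc u v ∧ ∃ m, M ≤ m ∧ (G b a m).Prime}) atTop (𝓝 0) := by
      have h1 := (tendsto_pow_atTop_nhds_zero_of_lt_one (r := (1 / 2 : ℝ)) (by norm_num) (by norm_num)).mul hlim
      rw [zero_mul] at h1
      refine h1.congr fun M => ?_
      rw [div_pow, one_pow]; field_simp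
    rw [ae_iff]
    set T : Set ℝ := {a | ¬ (a ∈ Set.Ioc u v → {m : ℕ | (G b a m).Prime}.Finite)} with hT
    have hfin : ∀ M : ℕ, volume {a : ℝ | a ∈ Set.Ioc u v ∧ ∃ m, M ≤ m ∧ (G b a m).Prime} ≠ ⊤ := fun M =>
      ((measure_mono fun a ha => ha.1).trans_lt (measure_Ioc_lt_top (a := u) (b := v))).ne
    have hsub : ∀ M : ℕ, T ⊆ {a : ℝ | a ∈ Set.Ioc u v ∧ ∃ m, M ≤ m ∧ (G b a m).Prime} := by
      intro M a ha
      rw [hT, Set.mem_ofPred_eq, Classical.not_imp] at ha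
      obtain ⟨m, hm1, hm2⟩ := (Set.not_finite.1 ha.2).exists_gt M
      exact ⟨ha.1, m, hm2.le, hm1⟩
    have h5 : volume.real T ≤ 0 := ge_of_tendsto hz (Eventually.of_forall fun M => measureReal_mono (hsub M) (hfin M))
    have h6 : volume.real T = 0 := le_antisymm h5 measureReal_nonneg
    rw [measureReal_def, ENNReal.toReal_eq_zero_iff] at h6
    exact h6.resolve_right (((measure_mono (hsub 0)).trans_lt (lt_top_iff_ne_top.2 (hfin 0))).ne)
  rw [← ae_all_iff] at h0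
  filter_upwards [h0] with a ha ha1
  obtain ⟨n, hn⟩ := exists_nat_gt (max (1 / a) a)
  have h1 : 1 / a < n := (le_max_left _ _).trans_lt hn
  have h2 : a < n := (le_max_right _ _).trans_lt hn
  refine ha n ⟨?_, by linarith⟩
  rw [div_lt_iff₀ ha1] at h1
  rw [div_lt_iff₀ (by linarith)]
  nlinarith

/-- the interior points of the amplitudes with a prime value -/
def U (b : ℝ) (M : ℕ) : Set ℝ :=
  Set.Iio 0 ∪ {a | ∃ m p : ℕ, M ≤ m ∧ p.Prime ∧ 0 < a ∧ (p : ℝ) - 1 < a * b ^ (2 ^ m) ∧ a * b ^ (2 ^ m) < p}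

theorem U_open (b : ℝ) (M : ℕ) : IsOpen (U b M) := by
  apply isOpen_Iio.union
  have : {a : ℝ | ∃ m p : ℕ, M ≤ m ∧ p.Prime ∧ 0 < a ∧ (p : ℝ) - 1 < a * b ^ (2 ^ m) ∧ a * b ^ (2 ^ m) < p} =
      ⋃ m : ℕ, ⋃ p : ℕ, {a : ℝ | M ≤ m ∧ p.Prime ∧ 0 < a ∧ (p : ℝ) - 1 < a * b ^ (2 ^ m) ∧ a * b ^ (2 ^ m) < p} := by
    ext a
    simp only [Set.mem_ofPred_eq, Set.mem_iUnion]
  rw [this]
  refine isOpen_iUnion fun m => isOpen_iUnion fun p => ?_
  by_cases h : M ≤ m ∧ p.Prime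
  · have e : {a : ℝ | M ≤ m ∧ p.Prime ∧ 0 < a ∧ (p : ℝ) - 1 < a * b ^ (2 ^ m) ∧ a * b ^ (2 ^ m) < p} =
        {a : ℝ | 0 < a} ∩ ({a : ℝ | (p : ℝ) - 1 < a * b ^ (2 ^ m)} ∩ {a : ℝ | a * b ^ (2 ^ m) < p}) := by
      ext a
      simp only [Set.mem_ofPred_eq, Set.mem_inter_iff]
      tauto
    rw [e]
    exact (isOpen_lt continuous_const continuous_id).inter
      ((isOpen_lt continuous_const (continuous_id.mul continuous_const)).inter
        (isOpen_lt (continuous_id.mul continuous_const) continuous_const))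
  · have e : {a : ℝ | M ≤ m ∧ p.Prime ∧ 0 < a ∧ (p : ℝ) - 1 < a * b ^ (2 ^ m) ∧ a * b ^ (2 ^ m) < p} = ∅ := by
      ext a
      simp only [Set.mem_ofPred_eq, Set.mem_empty_iff_false]
      tauto
    rw [e]; exact isOpen_empty

theorem U_dense {b : ℝ} (hb : 1 < b) (M : ℕ) : Dense (U b M) := by
  apply dense_of_exists_between
  intro x y hxy
  rcases lt_or_ge x 0 with h | h
  · obtain ⟨c, hc1, hc2⟩ := exists_between (lt_min hxy h)
    exact ⟨c, Or.inl (lt_of_lt_of_le hc2 (min_le_right _ _)), hc1, lt_of_lt_of_le hc2 (min_le_left _ _)⟩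
  obtain ⟨u, hu1, hu2⟩ := exists_between hxy
  have hu0 : 0 < u := by linarith
  obtain ⟨v, hv1, hv2⟩ := exists_between hu2
  have h1 := (lims hb hu0 hv1.le).1
  have hpos : 0 < (v - u) / Real.log b := div_pos (by linarith) (Real.log_pos hb)
  obtain ⟨m, hm1, hm2⟩ := ((h1.eventually (lt_mem_nhds hpos)).and (eventually_ge_atTop M)).exists
  have hX : 0 < b ^ (2 ^ m) := pow_pos (by linarith) _
  have h2 : 0 < volume.real (PA (b ^ (2 ^ m)) ∩ Set.Ioc u v) := by
    rw [res_PA _ (PA_meas hX)] at hm1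
    exact pos_of_mul_pos_right hm1 (by positivity)
  have h3 : (PA (b ^ (2 ^ m)) ∩ Set.Ioc u v).Nonempty := by
    rw [Set.nonempty_iff_ne_empty]
    intro h
    rw [h] at h2
    simp at h2
  obtain ⟨a, ⟨ha0, hp⟩, ha1, ha2⟩ := h3
  -- move a little to the right
  set p := ⌊a * b ^ (2 ^ m)⌋₊ + 1 with hpdef
  have h4 : a * b ^ (2 ^ m) < p := by rw [hpdef]; push_cast; exact Nat.lt_floor_add_one _
  have h5 : (p : ℝ) - 1 ≤ a * b ^ (2 ^ m) := by
    rw [hpdef]; push_cast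
    have := Nat.floor_le (mul_nonneg ha0 hX.le)
    linarith
  have h6 : a < min y (p / b ^ (2 ^ m)) := lt_min (by linarith) (by rw [lt_div_iff₀ hX]; exact h4)
  obtain ⟨c, hc1, hc2⟩ := exists_between h6
  refine ⟨c, Or.inr ⟨m, p, hm2, hp, by linarith, ?_, ?_⟩, by linarith, lt_of_lt_of_le hc2 (min_le_left _ _)⟩
  · have := mul_lt_mul_of_pos_right hc1 hX
    linarith
  · have := lt_of_lt_of_le hc2 (min_le_right _ _)
    rw [lt_div_iff₀ hX] at this
    exact this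

theorem generic {b : ℝ} (hb : 1 < b) : ∀ᶠ a in residual ℝ, 0 < a → {m : ℕ | (G b a m).Prime}.Infinite := by
  have h : ∀ᶠ a in residual ℝ, ∀ M : ℕ, a ∈ U b M :=
    eventually_countable_forall.2 fun M => residual_of_dense_open (U_open b M) (U_dense hb M)
  filter_upwards [h] with a ha ha1
  rw [← Nat.frequently_atTop_iff_infinite, frequently_atTop]
  intro M
  rcases ha M with h1 | ⟨m, p, h2, h3, h4, h5, h6⟩
  · exact absurd h1 (not_lt.2 ha1.le)
  · refine ⟨m, h2, ?_⟩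
    have e : G b a m = p := by
      unfold G
      have hp1 := h3.one_le
      have h7 : ⌊a * b ^ (2 ^ m)⌋₊ = p - 1 := by
        rw [Nat.floor_eq_iff (mul_nonneg h4.le (pow_nonneg (by linarith) _)), Nat.cast_sub hp1]
        push_cast
        constructor <;> linarith
      omega
    rw [e]; exact h3

/-- **Fermat primes to a fixed base, with an amplitude.** Fix a real base `b > 1` and for a real amplitude
`a > 0` let `G_m(a) = ⌊a b ^ (2 ^ m)⌋ + 1`; for `b = 2` the numbers `G_m(1) = 2 ^ (2 ^ m) + 1` are the Fermat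
numbers, and `G_m(a) - 1` is the number formed by the first `2 ^ m` binary digits of `a` after the point (and
the digits before it).

* For almost every `a > 0` only finitely many of the numbers `G_m(a)` are prime.
* For all `0 < u < v` the measure of the set of the amplitudes `a ∈ (u, v]` for which some `G_m(a)` with
  `m ≥ M` is prime is `(2 + o(1)) 2 ^ (-M) (v - u) / log b` as `M → ∞`; for `b = 2` the proportion
  `(2 / log 2) 2 ^ (-M)` is the value the usual heuristic gives for the expected number of Fermat primes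
  beyond `F_M`.
* The measure of the set of the amplitudes with two such primes is of smaller order.
* For generic amplitudes (outside a set of the first category) infinitely many `G_m(a)` are prime. -/
theorem result :
    (∀ m : ℕ, G 2 1 m = 2 ^ (2 ^ m) + 1) ∧
    ∀ b : ℝ, 1 < b →
    (∀ᵐ a : ℝ, 0 < a → {m : ℕ | (G b a m).Prime}.Finite) ∧
    (∀ u v : ℝ, 0 < u → u < v →
      Tendsto (fun M : ℕ => 2 ^ M * volume.real {a : ℝ | a ∈ Set.Ioc u v ∧ ∃ m, M ≤ m ∧ (G b a m).Prime}) atTop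
        (𝓝 (2 * ((v - u) / Real.log b))) ∧
      Tendsto (fun M : ℕ => 2 ^ M * volume.real {a : ℝ | a ∈ Set.Ioc u v ∧
        ∃ m m', M ≤ m ∧ m < m' ∧ (G b a m).Prime ∧ (G b a m').Prime}) atTop (𝓝 0)) ∧
    (∀ᶠ a in residual ℝ, 0 < a → {m : ℕ | (G b a m).Prime}.Infinite) := by
  refine ⟨G_two, fun b hb => ⟨fin_ae hb, fun u v hu huv => ⟨tail_law hb hu huv.le, ?_⟩, generic hb⟩⟩
  obtain ⟨h1, h2⟩ := lims hb hu huv.le
  have hX : ∀ m : ℕ, 0 < b ^ (2 ^ m) := fun m => pow_pos (by linarith) _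
  have h3 := two_lim (volume.restrict (Set.Ioc u v)) (E := fun m => PA (b ^ (2 ^ m)))
    (div_nonneg (by linarith) (Real.log_pos hb).le) h1 h2
  have hm : ∀ M : ℕ, MeasurableSet {x : ℝ | ∃ m m' : ℕ, M ≤ m ∧ m < m' ∧ x ∈ PA (b ^ (2 ^ m)) ∧ x ∈ PA (b ^ (2 ^ m'))} := by
    intro M
    have e : {x : ℝ | ∃ m m' : ℕ, M ≤ m ∧ m < m' ∧ x ∈ PA (b ^ (2 ^ m)) ∧ x ∈ PA (b ^ (2 ^ m'))} =
        ⋃ m : ℕ, ⋃ m' : ℕ, {x : ℝ | M ≤ m ∧ m < m' ∧ x ∈ PA (b ^ (2 ^ m)) ∧ x ∈ PA (b ^ (2 ^ m'))} := by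
      ext x
      simp only [Set.mem_ofPred_eq, Set.mem_iUnion]
    rw [e]
    refine MeasurableSet.iUnion fun m => MeasurableSet.iUnion fun m' => ?_
    by_cases h : M ≤ m ∧ m < m'
    · have e2 : {x : ℝ | M ≤ m ∧ m < m' ∧ x ∈ PA (b ^ (2 ^ m)) ∧ x ∈ PA (b ^ (2 ^ m'))} =
          PA (b ^ (2 ^ m)) ∩ PA (b ^ (2 ^ m')) := by
        ext x
        simp only [Set.mem_ofPred_eq, Set.mem_inter_iff]
        tauto
      rw [e2]
      exact (PA_meas (hX m)).inter (PA_meas (hX m'))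
    · have e2 : {x : ℝ | M ≤ m ∧ m < m' ∧ x ∈ PA (b ^ (2 ^ m)) ∧ x ∈ PA (b ^ (2 ^ m'))} = ∅ := by
        ext x
        simp only [Set.mem_ofPred_eq, Set.mem_empty_iff_false]
        tauto
      rw [e2]; exact MeasurableSet.empty
  refine h3.congr fun M => ?_
  rw [res_PA _ (hm M)]
  congr 2
  ext a
  simp only [Set.mem_ofPred_eq, Set.mem_inter_iff, PA, G]
  constructor
  · rintro ⟨⟨m, m', h4, h5, h6, h7⟩, h8⟩
    exact ⟨h8, m, m', h4, h5, h6.2, h7.2⟩
  · rintro ⟨h8, m, m', h4, h5, h6, h7⟩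
    have : 0 ≤ a := by linarith [h8.1]
    exact ⟨⟨m, m', h4, h5, ⟨this, h6⟩, this, h7⟩, h8⟩

end Pool.Agent.Results.MP_37e5fa_nt.FixedBase
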