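import Mathlib
import Pool.Agent.TH690.FM.C
import Pool.Agent.TH690.FM.D

/-!
# Fermat primes to a real base

For a real base `b > 1` let `F_m(b) = ⌊b ^ (2 ^ m)⌋ + 1`, so that `F_m(2) = 2 ^ (2 ^ m) + 1` is the `m`-th
Fermat number. The asymptotic size of the set of bases for which there is a prime `F_m(b)` with `m ≥ M`.
-/

set_option autoImplicit false

open Filter Topology MeasureTheory
open Pool.Agent.TH690.FM

namespace Pool.Agent.Results.MP_37e5fa_nt.RealBases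

/-- the `m`-th Fermat number to the base `b` -/
noncomputable def F (b : ℝ) (m : ℕ) : ℕ := ⌊b ^ (2 ^ m)⌋₊ + 1

theorem F_two (m : ℕ) : F 2 m = 2 ^ (2 ^ m) + 1 := by
  unfold F
  have : (2 : ℝ) ^ (2 ^ m) = ((2 ^ (2 ^ m) : ℕ) : ℝ) := by push_cast; rfl
  rw [this, Nat.floor_natCast]

theorem two_pow_tendsto : Tendsto (fun m : ℕ => 2 ^ m) atTop atTop := tendsto_pow_atTop_atTop_of_one_lt one_lt_two

theorem res_PS {u v : ℝ} (S : Set ℝ) (hS : MeasurableSet S) :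
    (volume.restrict (Set.Ioc u v)).real S = volume.real (S ∩ Set.Ioc u v) := by
  rw [measureReal_def, measureReal_def, Measure.restrict_apply hS]

theorem lims {u v : ℝ} (hu : 1 < u) (huv : u ≤ v) :
    Tendsto (fun m : ℕ => 2 ^ m * (volume.restrict (Set.Ioc u v)).real (PS (2 ^ m))) atTop (𝓝 (∫ z in u..v, gg z)) ∧
    ∀ j, 1 ≤ j → Tendsto (fun m : ℕ => 2 ^ m * (volume.restrict (Set.Ioc u v)).real (PS (2 ^ m) ∩ PS (2 ^ (m + j)))) atTop (𝓝 0) := by
  constructor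
  · have h := (lim1 hu huv).comp two_pow_tendsto
    refine h.congr fun m => ?_
    rw [res_PS _ (PS_meas (by positivity))]
    simp only [Function.comp]
    push_cast; rfl
  · intro j hj
    have h := (pair_lim hu huv (J := 2 ^ j) (by
      calc 2 = 2 ^ 1 := (pow_one 2).symm
        _ ≤ 2 ^ j := Nat.pow_le_pow_right (by norm_num) hj)).comp two_pow_tendsto
    refine h.congr fun m => ?_
    rw [res_PS _ ((PS_meas (by positivity)).inter (PS_meas (by positivity)))]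
    simp only [Function.comp]
    rw [pow_add]
    push_cast; rfl

theorem J_nonneg {u v : ℝ} (hu : 1 < u) (huv : u ≤ v) : 0 ≤ ∫ z in u..v, gg z :=
  le_trans (mul_nonneg (by linarith) (one_div_pos.2 (Real.log_pos (by linarith))).le) (int_bd hu huv).1

theorem union_meas (M : ℕ) : MeasurableSet (⋃ i, PS (2 ^ (M + i))) :=
  MeasurableSet.iUnion fun i => PS_meas (by positivity)

theorem union_eq {u v : ℝ} (hu : 1 < u) (M : ℕ) : {b : ℝ | b ∈ Set.Ioc u v ∧ ∃ m, M ≤ m ∧ (F b m).Prime} =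
    (⋃ i, PS (2 ^ (M + i))) ∩ Set.Ioc u v := by
  ext b
  simp only [Set.mem_ofPred_eq, Set.mem_inter_iff, Set.mem_iUnion, PS, F]
  constructor
  · rintro ⟨h1, m, h2, h3⟩
    exact ⟨⟨m - M, by linarith [h1.1], by rw [show M + (m - M) = m by omega]; exact h3⟩, h1⟩
  · rintro ⟨⟨i, h1, h2⟩, h3⟩
    exact ⟨h3, M + i, by omega, h2⟩

theorem tail_law {u v : ℝ} (hu : 1 < u) (huv : u ≤ v) :
    Tendsto (fun M : ℕ => 2 ^ M * volume.real {b : ℝ | b ∈ Set.Ioc u v ∧ ∃ m, M ≤ m ∧ (F b m).Prime}) atTop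
      (𝓝 (2 * ∫ z in u..v, 1 / Real.log z)) := by
  obtain ⟨h1, h2⟩ := lims hu huv
  have h3 := tail_lim (volume.restrict (Set.Ioc u v)) (E := fun m => PS (2 ^ m)) (fun n => PS_meas (by positivity))
    (J_nonneg hu huv) h1 h2
  refine h3.congr fun M => ?_
  rw [res_PS _ (union_meas M), union_eq hu]

theorem fin_ae : ∀ᵐ b : ℝ, 1 < b → {m : ℕ | (F b m).Prime}.Finite := by
  have h0 : ∀ n : ℕ, ∀ᵐ b : ℝ, b ∈ Set.Ioc (1 + 1 / ((n : ℝ) + 1)) ((n : ℝ) + 2) → {m : ℕ | (F b m).Prime}.Finite := by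
    intro n
    set u : ℝ := 1 + 1 / ((n : ℝ) + 1) with hu
    set v : ℝ := (n : ℝ) + 2 with hv
    have hn : (0 : ℝ) ≤ n := Nat.cast_nonneg n
    have hu1 : 1 < u := by
      have : (0 : ℝ) < 1 / ((n : ℝ) + 1) := by positivity
      linarith
    have huv : u ≤ v := by
      have : 1 / ((n : ℝ) + 1) ≤ 1 := by rw [div_le_one (by linarith)]; linarith
      linarith
    have hlim := tail_law hu1 huv
    have hz : Tendsto (fun M : ℕ => volume.real {b : ℝ | b ∈ Set.Ioc u v ∧ ∃ m, M ≤ m ∧ (F b m).Prime}) atTop (𝓝 0) := by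
      have h1 := (tendsto_pow_atTop_nhds_zero_of_lt_one (r := (1 / 2 : ℝ)) (by norm_num) (by norm_num)).mul hlim
      rw [zero_mul] at h1
      refine h1.congr fun M => ?_
      rw [div_pow, one_pow]; field_simp
    rw [ae_iff]
    set T : Set ℝ := {b | ¬ (b ∈ Set.Ioc u v → {m : ℕ | (F b m).Prime}.Finite)} with hT
    have hfin : ∀ M : ℕ, volume {b : ℝ | b ∈ Set.Ioc u v ∧ ∃ m, M ≤ m ∧ (F b m).Prime} ≠ ⊤ := fun M =>
      ((measure_mono fun b hb => hb.1).trans_lt (measure_Ioc_lt_top (a := u) (b := v))).ne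
    have hsub : ∀ M : ℕ, T ⊆ {b : ℝ | b ∈ Set.Ioc u v ∧ ∃ m, M ≤ m ∧ (F b m).Prime} := by
      intro M b hb
      rw [hT, Set.mem_ofPred_eq, Classical.not_imp] at hb
      obtain ⟨m, hm1, hm2⟩ := (Set.not_finite.1 hb.2).exists_gt M
      exact ⟨hb.1, m, hm2.le, hm1⟩
    have h5 : volume.real T ≤ 0 := ge_of_tendsto hz (Eventually.of_forall fun M => measureReal_mono (hsub M) (hfin M))
    have h6 : volume.real T = 0 := le_antisymm h5 measureReal_nonneg
    rw [measureReal_def, ENNReal.toReal_eq_zero_iff] at h6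
    exact h6.resolve_right (((measure_mono (hsub 0)).trans_lt (lt_top_iff_ne_top.2 (hfin 0))).ne)
  rw [← ae_all_iff] at h0
  filter_upwards [h0] with b hb hb1
  obtain ⟨n, hn⟩ := exists_nat_gt (max (1 / (b - 1)) b)
  have h1 : 1 / (b - 1) < n := (le_max_left _ _).trans_lt hn
  have h2 : b < n := (le_max_right _ _).trans_lt hn
  refine hb n ⟨?_, by linarith⟩
  have h3 : 0 < b - 1 := by linarith
  rw [div_lt_iff₀ h3] at h1
  have h4 : 1 / ((n : ℝ) + 1) < b - 1 := by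
    rw [div_lt_iff₀ (by linarith)]
    nlinarith
  linarith

/-- the interior points of the bases with a prime value -/
def U (M : ℕ) : Set ℝ := Set.Iio 1 ∪ {b | ∃ m p : ℕ, M ≤ m ∧ p.Prime ∧ 0 < b ∧ (p : ℝ) - 1 < b ^ (2 ^ m) ∧ b ^ (2 ^ m) < p}

theorem U_open (M : ℕ) : IsOpen (U M) := by
  apply isOpen_Iio.union
  have : {b : ℝ | ∃ m p : ℕ, M ≤ m ∧ p.Prime ∧ 0 < b ∧ (p : ℝ) - 1 < b ^ (2 ^ m) ∧ b ^ (2 ^ m) < p} =
      ⋃ m : ℕ, ⋃ p : ℕ, {b : ℝ | M ≤ m ∧ p.Prime ∧ 0 < b ∧ (p : ℝ) - 1 < b ^ (2 ^ m) ∧ b ^ (2 ^ m) < p} := by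
    ext b
    simp only [Set.mem_ofPred_eq, Set.mem_iUnion]
  rw [this]
  refine isOpen_iUnion fun m => isOpen_iUnion fun p => ?_
  by_cases h : M ≤ m ∧ p.Prime
  · have e : {b : ℝ | M ≤ m ∧ p.Prime ∧ 0 < b ∧ (p : ℝ) - 1 < b ^ (2 ^ m) ∧ b ^ (2 ^ m) < p} =
        {b : ℝ | 0 < b} ∩ ({b : ℝ | (p : ℝ) - 1 < b ^ (2 ^ m)} ∩ {b : ℝ | b ^ (2 ^ m) < p}) := by
      ext b
      simp only [Set.mem_ofPred_eq, Set.mem_inter_iff]
      tauto
    rw [e]
    exact (isOpen_lt continuous_const continuous_id).inter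
      ((isOpen_lt continuous_const (continuous_pow _)).inter (isOpen_lt (continuous_pow _) continuous_const))
  · have e : {b : ℝ | M ≤ m ∧ p.Prime ∧ 0 < b ∧ (p : ℝ) - 1 < b ^ (2 ^ m) ∧ b ^ (2 ^ m) < p} = ∅ := by
      ext b
      simp only [Set.mem_ofPred_eq, Set.mem_empty_iff_false]
      tauto
    rw [e]; exact isOpen_empty

theorem U_dense (M : ℕ) : Dense (U M) := by
  apply dense_of_exists_between
  intro a b hab
  rcases lt_or_ge a 1 with h | h
  · obtain ⟨c, hc1, hc2⟩ := exists_between (lt_min hab h)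
    exact ⟨c, Or.inl (lt_of_lt_of_le hc2 (min_le_right _ _)), hc1, lt_of_lt_of_le hc2 (min_le_left _ _)⟩
  obtain ⟨u, hu1, hu2⟩ := exists_between hab
  obtain ⟨v, hv1, hv2⟩ := exists_between hu2
  have hu0 : 1 < u := by linarith
  have hratio : 1 < v / u := by rw [one_lt_div (by linarith)]; exact hv1
  have h1 : Tendsto (fun k : ℕ => (v / u) ^ k) atTop atTop := tendsto_pow_atTop_atTop_of_one_lt hratio
  have h2 := (h1.comp two_pow_tendsto).eventually_ge_atTop 5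
  obtain ⟨m, hm1, hm2⟩ := (h2.and (eventually_ge_atTop M)).exists
  simp only [Function.comp] at hm1
  set k := 2 ^ m with hk
  have hk0 : k ≠ 0 := by positivity
  have hup : 1 ≤ u ^ k := one_le_pow₀ hu0.le
  rw [div_pow, le_div_iff₀ (by positivity)] at hm1
  obtain ⟨p, hp, hp1, hp2⟩ := Nat.exists_prime_lt_and_le_two_mul (⌊u ^ k⌋₊ + 1) (by omega)
  have h3 : u ^ k < ⌊u ^ k⌋₊ + 1 := Nat.lt_floor_add_one _
  have h4 : (⌊u ^ k⌋₊ : ℝ) ≤ u ^ k := Nat.floor_le (by positivity)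
  have h5 : ((⌊u ^ k⌋₊ + 1 + 1 : ℕ) : ℝ) ≤ p := by exact_mod_cast hp1
  have h6 : (p : ℝ) ≤ 2 * (⌊u ^ k⌋₊ + 1) := by exact_mod_cast hp2
  push_cast at h5
  have hpr : (0 : ℝ) ≤ (p : ℝ) - 1 / 2 := by linarith
  set c : ℝ := ((p : ℝ) - 1 / 2) ^ ((k : ℝ)⁻¹) with hc
  have hc0 : 0 ≤ c := Real.rpow_nonneg hpr _
  have hck : c ^ k = (p : ℝ) - 1 / 2 := Real.rpow_inv_natCast_pow hpr hk0
  have huc : u < c := by
    rw [← pow_lt_pow_iff_left₀ (by linarith) hc0 hk0, hck]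
    linarith
  have hcv : c < v := by
    rw [← pow_lt_pow_iff_left₀ hc0 (by linarith) hk0, hck]
    linarith
  refine ⟨c, Or.inr ⟨m, p, hm2, hp, by linarith, ?_, ?_⟩, by linarith, by linarith⟩
  · rw [← hk, hck]; linarith
  · rw [← hk, hck]; linarith

theorem generic : ∀ᶠ b in residual ℝ, 1 < b → {m : ℕ | (F b m).Prime}.Infinite := by
  have h : ∀ᶠ b in residual ℝ, ∀ M : ℕ, b ∈ U M :=
    eventually_countable_forall.2 fun M => residual_of_dense_open (U_open M) (U_dense M)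
  filter_upwards [h] with b hb hb1
  rw [← Nat.frequently_atTop_iff_infinite, frequently_atTop]
  intro M
  rcases hb M with h1 | ⟨m, p, h2, h3, h4, h5, h6⟩
  · exact absurd h1 (not_lt.2 hb1.le)
  · refine ⟨m, h2, ?_⟩
    have e : F b m = p := by
      unfold F
      have hp1 := h3.one_le
      have h7 : ⌊b ^ (2 ^ m)⌋₊ = p - 1 := by
        rw [Nat.floor_eq_iff (by positivity), Nat.cast_sub hp1]
        push_cast
        constructor <;> linarith
      omega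
    rw [e]; exact h3

/-- **Fermat primes to real bases.** For a real base `b > 1` let `F_m(b) = ⌊b ^ (2 ^ m)⌋ + 1`; the numbers
`F_m(2) = 2 ^ (2 ^ m) + 1` are the Fermat numbers.

* For almost every base `b > 1` only finitely many of the numbers `F_m(b)` are prime.
* For all `1 < u < v` the measure of the set of the bases `b ∈ (u, v]` for which some `F_m(b)` with
  `m ≥ M` is prime is `(2 + o(1)) 2 ^ (-M) ∫_u^v db / log b` as `M → ∞`. So near the base `2` the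
  proportion of the bases with a prime beyond the index `M` is `(2 / log 2) 2 ^ (-M)`, the value the usual
  heuristic gives for the expected number of Fermat primes beyond `F_M`.
* The measure of the set of the bases with two such primes is of smaller order.
* For generic bases (outside a set of the first category) infinitely many of the numbers `F_m(b)` are prime. -/
theorem result :
    (∀ m : ℕ, F 2 m = 2 ^ (2 ^ m) + 1) ∧
    (∀ᵐ b : ℝ, 1 < b → {m : ℕ | (F b m).Prime}.Finite) ∧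
    (∀ u v : ℝ, 1 < u → u < v →
      Tendsto (fun M : ℕ => 2 ^ M * volume.real {b : ℝ | b ∈ Set.Ioc u v ∧ ∃ m, M ≤ m ∧ (F b m).Prime}) atTop
        (𝓝 (2 * ∫ b in u..v, 1 / Real.log b)) ∧
      Tendsto (fun M : ℕ => 2 ^ M * volume.real {b : ℝ | b ∈ Set.Ioc u v ∧
        ∃ m m', M ≤ m ∧ m < m' ∧ (F b m).Prime ∧ (F b m').Prime}) atTop (𝓝 0)) ∧
    (∀ᶠ b in residual ℝ, 1 < b → {m : ℕ | (F b m).Prime}.Infinite) := by
  refine ⟨F_two, fin_ae, fun u v hu huv => ⟨tail_law hu huv.le, ?_⟩, generic⟩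
  obtain ⟨h1, h2⟩ := lims hu huv.le
  have h3 := two_lim (volume.restrict (Set.Ioc u v)) (E := fun m => PS (2 ^ m)) (J_nonneg hu huv.le) h1 h2
  have hm : ∀ M : ℕ, MeasurableSet {x : ℝ | ∃ m m' : ℕ, M ≤ m ∧ m < m' ∧ x ∈ PS (2 ^ m) ∧ x ∈ PS (2 ^ m')} := by
    intro M
    have e : {x : ℝ | ∃ m m' : ℕ, M ≤ m ∧ m < m' ∧ x ∈ PS (2 ^ m) ∧ x ∈ PS (2 ^ m')} =
        ⋃ m : ℕ, ⋃ m' : ℕ, {x : ℝ | M ≤ m ∧ m < m' ∧ x ∈ PS (2 ^ m) ∧ x ∈ PS (2 ^ m')} := by
      ext x
      simp only [Set.mem_ofPred_eq, Set.mem_iUnion]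
    rw [e]
    refine MeasurableSet.iUnion fun m => MeasurableSet.iUnion fun m' => ?_
    by_cases h : M ≤ m ∧ m < m'
    · have e2 : {x : ℝ | M ≤ m ∧ m < m' ∧ x ∈ PS (2 ^ m) ∧ x ∈ PS (2 ^ m')} = PS (2 ^ m) ∩ PS (2 ^ m') := by
        ext x
        simp only [Set.mem_ofPred_eq, Set.mem_inter_iff]
        tauto
      rw [e2]
      exact (PS_meas (by positivity)).inter (PS_meas (by positivity))
    · have e2 : {x : ℝ | M ≤ m ∧ m < m' ∧ x ∈ PS (2 ^ m) ∧ x ∈ PS (2 ^ m')} = ∅ := by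
        ext x
        simp only [Set.mem_ofPred_eq, Set.mem_empty_iff_false]
        tauto
      rw [e2]; exact MeasurableSet.empty
  refine h3.congr fun M => ?_
  rw [res_PS _ (hm M)]
  congr 2
  ext b
  simp only [Set.mem_ofPred_eq, Set.mem_inter_iff, PS, F]
  constructor
  · rintro ⟨⟨m, m', h4, h5, h6, h7⟩, h8⟩
    exact ⟨h8, m, m', h4, h5, h6.2, h7.2⟩
  · rintro ⟨h8, m, m', h4, h5, h6, h7⟩
    have : 0 ≤ b := by linarith [h8.1]
    exact ⟨⟨m, m', h4, h5, ⟨this, h6⟩, this, h7⟩, h8⟩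

end Pool.Agent.Results.MP_37e5fa_nt.RealBases
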