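import Mathlib
import Pool.Agent.H627.FN.Tail

set_option autoImplicit false

/-!
# MP_37e5fa_nt: the exact tail law for Fermat-type primes

All prime factors of the Fermat number `F_m` exceed `2^(m+1)` (and `2^(m+2)` for `m ≥ 2`), so `F_m` is
its own `2^(m+1)`-rough part.  We consider the dilates `⌊β F_m⌋` of the Fermat numbers by a real
amplitude `β` (`β = 1` gives `F_m`), with `log β` uniform in a window `(b0, b0 + 1]`, and the event
that the `2^(m+k)`-rough part of `⌊β F_m⌋` is prime.  The probability of this event, the expected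
number of events of index at least `M` and the probability that there is such an event at all are
determined, the last two both being `e^γ (M + k + 1) / 2^(M-1) + O(2^(-M))`.
-/

namespace Pool.Agent.Results.MP_37e5fa_nt.TailLaw

open Filter Topology MeasureTheory

/-- the `z`-rough part of `x`: the product, with multiplicity, of its prime factors exceeding `z` -/
def rough (z x : ℕ) : ℕ := (x.primeFactorsList.filter (fun r => z < r)).prod

/-- the set of `t ∈ (b0, b0 + 1]` for which the `2^(m+k)`-rough part of `⌊e^t F_m⌋` is prime -/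
def FermatLike (k : ℕ) (b0 : ℝ) (m : ℕ) : Set ℝ :=
  {t | t ∈ Set.Ioc b0 (b0 + 1) ∧ (rough (2 ^ (m + k)) ⌊Real.exp t * Nat.fermatNumber m⌋₊).Prime}

lemma set_eq (k : ℕ) (b0 : ℝ) (m : ℕ) : FermatLike k b0 m = Pool.Agent.H627.FN.EvF k b0 m := rfl

lemma fermat_factor {m p : ℕ} (hp : p.Prime) (hd : p ∣ Nat.fermatNumber m) : 2 ^ (m + 1) < p := by
  rcases Nat.lt_or_ge 1 m with hm | hm
  · obtain ⟨k, hk⟩ := Nat.fermat_primeFactors_one_lt m p hm hp hd
    have hk0 : k ≠ 0 := by
      rintro rfl
      rw [hk] at hp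
      simp at hp
      exact Nat.not_prime_one hp
    have h1 : 2 ^ (m + 2) ≤ k * 2 ^ (m + 2) := Nat.le_mul_of_pos_left _ (Nat.pos_of_ne_zero hk0)
    have h2 : 2 ^ (m + 2) = 2 * 2 ^ (m + 1) := by ring
    omega
  · interval_cases m
    · have h3 : Nat.fermatNumber 0 = 3 := by norm_num [Nat.fermatNumber]
      rw [h3] at hd
      have := (Nat.prime_dvd_prime_iff_eq hp Nat.prime_three).1 hd
      subst this
      norm_num
    · have h5 : Nat.fermatNumber 1 = 5 := by norm_num [Nat.fermatNumber]
      rw [h5] at hd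
      have := (Nat.prime_dvd_prime_iff_eq hp (by norm_num)).1 hd
      subst this
      norm_num

lemma fermat_factor2 {m p : ℕ} (hm : 2 ≤ m) (hp : p.Prime) (hd : p ∣ Nat.fermatNumber m) :
    2 ^ (m + 2) < p := by
  obtain ⟨k, hk⟩ := Nat.fermat_primeFactors_one_lt m p (by omega) hp hd
  have hk0 : k ≠ 0 := by
    rintro rfl
    rw [hk] at hp
    simp at hp
    exact Nat.not_prime_one hp
  have h1 : 2 ^ (m + 2) ≤ k * 2 ^ (m + 2) := Nat.le_mul_of_pos_left _ (Nat.pos_of_ne_zero hk0)
  omega

lemma rough_self {z x : ℕ} (hx : x ≠ 0) (h : ∀ p, p.Prime → p ∣ x → z < p) : rough z x = x := by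
  unfold rough
  have : x.primeFactorsList.filter (fun r => decide (z < r)) = x.primeFactorsList := by
    rw [List.filter_eq_self]
    intro p hp
    rw [decide_eq_true_eq]
    exact h p (Nat.prime_of_mem_primeFactorsList hp) (Nat.dvd_of_mem_primeFactorsList hp)
  rw [this]
  exact Nat.prod_primeFactorsList hx

/-- **The tail law for Fermat-type primes.** -/
theorem result :
    (∀ (k : ℕ) (b0 : ℝ), ∃ K : ℝ, ∀ M : ℕ,
      -- the probability of one event
      |volume.real (FermatLike k b0 M) -
        Real.exp Real.eulerMascheroniConstant * (M + k) / 2 ^ M| ≤ K / 2 ^ M ∧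
      -- the expected number of the events of index at least `M`
      Summable (fun j => volume.real (FermatLike k b0 (M + j))) ∧
      |∑' j, volume.real (FermatLike k b0 (M + j)) -
        Real.exp Real.eulerMascheroniConstant * (2 * (M + k + 1) / 2 ^ M)| ≤ K / 2 ^ M ∧
      -- the probability that at least one event of index at least `M` occurs
      |volume.real (⋃ j, FermatLike k b0 (M + j)) -
        Real.exp Real.eulerMascheroniConstant * (2 * (M + k + 1) / 2 ^ M)| ≤ K / 2 ^ M) ∧
    -- the Fermat numbers are the case `t = 0`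
    (∀ m : ℕ, rough (2 ^ (m + 1)) ⌊Real.exp 0 * Nat.fermatNumber m⌋₊ = Nat.fermatNumber m) ∧
    (∀ m : ℕ, 2 ≤ m → rough (2 ^ (m + 2)) ⌊Real.exp 0 * Nat.fermatNumber m⌋₊ = Nat.fermatNumber m) := by
  refine ⟨fun k b0 => ?_, fun m => ?_, fun m hm => ?_⟩
  · obtain ⟨K1, hK1, h1⟩ := Pool.Agent.H627.FN.one_index k b0
    obtain ⟨K2, h2⟩ := Pool.Agent.H627.FN.tail_law k b0
    refine ⟨max K1 K2, fun M => ?_⟩
    obtain ⟨a1, a2, a3⟩ := h2 M
    have e1 : K1 / (2 : ℝ) ^ M ≤ max K1 K2 / 2 ^ M :=
      div_le_div_of_nonneg_right (le_max_left _ _) (by positivity)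
    have e2 : K2 / (2 : ℝ) ^ M ≤ max K1 K2 / 2 ^ M :=
      div_le_div_of_nonneg_right (le_max_right _ _) (by positivity)
    exact ⟨(h1 M).trans e1, a1, a2.trans e2, a3.trans e2⟩
  · rw [Real.exp_zero, one_mul, Nat.floor_natCast]
    exact rough_self (Nat.succ_ne_zero _) fun p hp hd => fermat_factor hp hd
  · rw [Real.exp_zero, one_mul, Nat.floor_natCast]
    exact rough_self (Nat.succ_ne_zero _) fun p hp hd => fermat_factor2 hm hp hd

end Pool.Agent.Results.MP_37e5fa_nt.TailLaw
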